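import Pool.Agent.E8helper15.FT.Stm

/-!
# Project FT, piece CNT: the values of the iterates of the logistic map are sparse
-/

set_option autoImplicit false

namespace Pool.Agent.E8helper40.FT

open Pool.Agent.E8helper15.FT

/-- the height of a rational number -/
noncomputable def ht (x : ℚ) : ℝ := max |(x.num : ℝ)| (x.den : ℝ)

theorem one_le_ht (x : ℚ) : 1 ≤ ht x := by
  refine le_trans ?_ (le_max_right _ _)
  exact_mod_cast x.pos

theorem ht_logi (x : ℚ) : ht x ^ 2 / 16 ≤ ht (logi x) := by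
  obtain ⟨p, hp⟩ : ∃ p : ℤ, p = x.num := ⟨_, rfl⟩
  obtain ⟨q, hq⟩ : ∃ q : ℤ, q = (x.den : ℤ) := ⟨_, rfl⟩
  have hq0 : 0 < q := by
    rw [hq]; exact_mod_cast x.pos
  have hcop : IsCoprime p q := by
    rw [hp, hq, Int.isCoprime_iff_gcd_eq_one]
    exact x.reduced
  have hx : x = (p : ℚ) / (q : ℚ) := by
    rw [hp, hq]
    exact (Rat.num_div_den x).symm
  have hqQ : (q : ℚ) ≠ 0 := by exact_mod_cast hq0.ne'
  have hy : logi x = Rat.divInt (4 * (p * (q - p))) (q * q) := by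
    rw [Rat.divInt_eq_div, logi, hx]
    push_cast
    field_simp
  obtain ⟨c, hc1, hc2⟩ := Rat.num_den_mk (mul_pos hq0 hq0).ne' hy
  have hcop2 : IsCoprime (p * (q - p)) (q * q) := by
    have h1 : IsCoprime (q - p) q := by
      have h2 : IsCoprime (-p) q := hcop.neg_left
      have h3 := h2.add_mul_right_left 1
      have e : -p + 1 * q = q - p := by ring
      rwa [e] at h3
    have h4 : IsCoprime (p * (q - p)) q := hcop.mul_left h1
    exact h4.mul_right h4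
  have hc4 : c ∣ 4 := by
    obtain ⟨u, v, huv⟩ := hcop2
    have h1 : (4 : ℤ) = u * (4 * (p * (q - p))) + 4 * v * (q * q) := by
      linear_combination (-4) * huv
    rw [h1]
    exact dvd_add (Dvd.dvd.mul_left ⟨_, hc1⟩ _) (Dvd.dvd.mul_left ⟨_, hc2⟩ _)
  have hcabs : |c| ≤ 4 := Int.le_of_dvd (by norm_num) ((abs_dvd _ _).2 hc4)
  have hcR : |(c : ℝ)| ≤ 4 := by exact_mod_cast hcabs
  have ha : |(4 * ((p : ℝ) * (q - p)))| ≤ 4 * ht (logi x) := by
    have h1 : (4 * ((p : ℝ) * (q - p))) = c * ((logi x).num : ℝ) := by exact_mod_cast hc1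
    rw [h1, abs_mul]
    exact mul_le_mul hcR (le_max_left _ _) (abs_nonneg _) (by norm_num)
  have hb : (q : ℝ) * q ≤ 4 * ht (logi x) := by
    have h1 : (q : ℝ) * q = c * ((logi x).den : ℝ) := by exact_mod_cast hc2
    have h2 : (q : ℝ) * q = |(c : ℝ)| * ((logi x).den : ℝ) := by
      have h3 : 0 < (q : ℝ) * q := by
        have : (0 : ℝ) < q := by exact_mod_cast hq0
        positivity
      have h4 := abs_of_pos h3
      rw [h1, abs_mul, abs_of_nonneg (Nat.cast_nonneg (logi x).den : (0 : ℝ) ≤ (logi x).den)] at h4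
      rw [h1]
      exact h4.symm
    rw [h2]
    exact mul_le_mul hcR (le_max_right _ _) (Nat.cast_nonneg _) (by norm_num)
  have hqR : (0 : ℝ) < q := by exact_mod_cast hq0
  have hhx : ht x = max |(p : ℝ)| (q : ℝ) := by
    rw [hp, hq]
    simp [ht]
  rw [hhx]
  have ha' : 4 * (|(p : ℝ)| * |(q : ℝ) - p|) ≤ 4 * ht (logi x) := by
    rw [abs_mul, abs_mul] at ha
    simpa using ha
  rcases le_or_gt (2 * (q : ℝ)) |(p : ℝ)| with h | h
  · have h1 : max |(p : ℝ)| (q : ℝ) = |(p : ℝ)| := max_eq_left (by linarith)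
    rw [h1]
    have h2 : |(p : ℝ)| / 2 ≤ |(q : ℝ) - p| := by
      have h3 : |(p : ℝ)| ≤ |(q : ℝ) - p| + |(q : ℝ)| := by
        have := abs_sub_abs_le_abs_sub (p : ℝ) (q : ℝ)
        rw [abs_sub_comm (p : ℝ) (q : ℝ)] at this
        linarith
      rw [abs_of_pos hqR] at h3
      linarith
    nlinarith [mul_le_mul_of_nonneg_left h2 (abs_nonneg (p : ℝ)), abs_nonneg (p : ℝ)]
  · have h1 : max |(p : ℝ)| (q : ℝ) ≤ 2 * q := max_le h.le (by linarith)
    have h2 : 0 ≤ max |(p : ℝ)| (q : ℝ) := le_trans hqR.le (le_max_right _ _)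
    nlinarith [mul_le_mul h1 h1 h2 (by linarith)]

theorem ht_iter (k : ℕ) : ∃ c : ℝ, 0 < c ∧ ∀ x : ℚ, c * ht x ^ (2 ^ k) ≤ ht (logi^[k] x) := by
  induction k with
  | zero => exact ⟨1, one_pos, fun x => by simp⟩
  | succ k ih =>
    obtain ⟨c, hc, h⟩ := ih
    refine ⟨c ^ 2 / 16, by positivity, fun x => ?_⟩
    rw [Function.iterate_succ_apply']
    refine le_trans ?_ (ht_logi _)
    have h1 := h x
    have h0 : 0 ≤ c * ht x ^ (2 ^ k) := by
      have := one_le_ht x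
      positivity
    have h2 := pow_le_pow_left₀ h0 h1 2
    have e : c ^ 2 / 16 * ht x ^ (2 ^ (k + 1)) = (c * ht x ^ (2 ^ k)) ^ 2 / 16 := by
      rw [mul_pow, ← pow_mul, pow_succ 2 k]
      ring
    rw [e]
    linarith

theorem cnt_ht (Y : ℝ) (hY : 0 ≤ Y) : {x : ℚ | ht x ≤ Y}.Finite ∧
    ({x : ℚ | ht x ≤ Y}.ncard : ℝ) ≤ 3 * Y ^ 2 := by
  obtain ⟨N, hN⟩ : ∃ N : ℕ, N = ⌊Y⌋₊ := ⟨_, rfl⟩
  have hNY : (N : ℝ) ≤ Y := by
    rw [hN]; exact Nat.floor_le hY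
  set F : Finset (ℤ × ℕ) := (Finset.Icc (-(N : ℤ)) N) ×ˢ (Finset.Icc 1 N) with hF
  have hmap : ∀ x ∈ {x : ℚ | ht x ≤ Y}, (x.num, x.den) ∈ (F : Set (ℤ × ℕ)) := by
    intro x hx
    have h1 : |(x.num : ℝ)| ≤ Y := le_trans (le_max_left _ _) hx
    have h2 : (x.den : ℝ) ≤ Y := le_trans (le_max_right _ _) hx
    have h3 : x.den ≤ N := by
      rw [hN]; exact Nat.le_floor h2
    have h4 : x.num.natAbs ≤ N := by
      rw [hN]
      refine Nat.le_floor ?_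
      rwa [Nat.cast_natAbs, Int.cast_abs]
    rw [Finset.mem_coe, hF, Finset.mem_product, Finset.mem_Icc, Finset.mem_Icc]
    have h5 := x.pos
    refine ⟨⟨?_, ?_⟩, ?_, h3⟩
    · show -(N : ℤ) ≤ x.num
      omega
    · show x.num ≤ (N : ℤ)
      omega
    · exact h5
  have hinj : Set.InjOn (fun x : ℚ => (x.num, x.den)) {x : ℚ | ht x ≤ Y} := by
    intro x _ y _ hxy
    have h1 : x.num = y.num := congrArg Prod.fst hxy
    have h2 : x.den = y.den := congrArg Prod.snd hxy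
    exact Rat.ext h1 h2
  have hfin : {x : ℚ | ht x ≤ Y}.Finite :=
    Set.Finite.of_injOn (f := fun x : ℚ => (x.num, x.den)) hmap hinj F.finite_toSet
  refine ⟨hfin, ?_⟩
  have h1 := Set.ncard_le_ncard_of_injOn (fun x : ℚ => (x.num, x.den)) hmap hinj F.finite_toSet
  rw [Set.ncard_coe_finset] at h1
  have h2 : F.card = (2 * N + 1) * N := by
    rw [hF, Finset.card_product, Int.card_Icc, Nat.card_Icc]
    congr 1
    omega
  rw [h2] at h1
  have h3 : ({x : ℚ | ht x ≤ Y}.ncard : ℝ) ≤ ((2 * N + 1) * N : ℕ) := by exact_mod_cast h1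
  refine h3.trans ?_
  push_cast
  have h4 : (N : ℝ) ≤ (N : ℝ) ^ 2 := by
    have : N ≤ N ^ 2 := Nat.le_self_pow (by norm_num) N
    exact_mod_cast this
  have h5 : (N : ℝ) ^ 2 ≤ Y ^ 2 := pow_le_pow_left₀ (Nat.cast_nonneg N) hNY 2
  nlinarith

/-- CNT. The values of the iterates are sparse. -/
theorem t_CNT : S_CNT := by
  intro k
  obtain ⟨c, hc, h⟩ := ht_iter k
  refine ⟨3 * (1 / c) ^ ((2 : ℝ) / 2 ^ k), fun X hX => ?_⟩
  obtain ⟨Y, hY⟩ : ∃ Y : ℝ, Y = (X / c) ^ ((1 : ℝ) / 2 ^ k) := ⟨_, rfl⟩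
  have hXc : 0 < X / c := by positivity
  have hY0 : 0 ≤ Y := by
    rw [hY]; positivity
  have hYp : Y ^ (2 ^ k) = X / c := by
    rw [hY, ← Real.rpow_natCast, ← Real.rpow_mul hXc.le]
    have : (1 : ℝ) / 2 ^ k * ((2 ^ k : ℕ) : ℝ) = 1 := by
      push_cast
      field_simp
    rw [this, Real.rpow_one]
  have hsub : {l : ℚ | l ∈ Set.range (logi^[k] : ℚ → ℚ) ∧ max |(l.num : ℝ)| (l.den : ℝ) ≤ X} ⊆
      (logi^[k] : ℚ → ℚ) '' {x : ℚ | ht x ≤ Y} := by
    rintro l ⟨⟨x, rfl⟩, hl⟩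
    refine ⟨x, ?_, rfl⟩
    have h1 : c * ht x ^ (2 ^ k) ≤ X := le_trans (h x) hl
    have h2 : ht x ^ (2 ^ k) ≤ Y ^ (2 ^ k) := by
      rw [hYp, le_div_iff₀ hc]
      linarith
    exact le_of_pow_le_pow_left₀ (by positivity) hY0 h2
  obtain ⟨hf, hn⟩ := cnt_ht Y hY0
  have hfi := hf.image (logi^[k] : ℚ → ℚ)
  refine ⟨hfi.subset hsub, ?_⟩
  have h1 := Set.ncard_le_ncard hsub hfi
  have h2 := Set.ncard_image_le (f := (logi^[k] : ℚ → ℚ)) hf
  have h3 : ({l : ℚ | l ∈ Set.range (logi^[k] : ℚ → ℚ) ∧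
      max |(l.num : ℝ)| (l.den : ℝ) ≤ X}.ncard : ℝ) ≤ ({x : ℚ | ht x ≤ Y}.ncard : ℝ) := by
    exact_mod_cast h1.trans h2
  refine h3.trans (hn.trans (le_of_eq ?_))
  have h4 : Y ^ 2 = (1 / c) ^ ((2 : ℝ) / 2 ^ k) * X ^ ((2 : ℝ) / 2 ^ k) := by
    have e1 : X / c = 1 / c * X := by ring
    rw [hY, ← Real.rpow_natCast, ← Real.rpow_mul hXc.le, e1,
      Real.mul_rpow (by positivity) (by positivity)]
    have e2 : (1 : ℝ) / 2 ^ k * ((2 : ℕ) : ℝ) = 2 / 2 ^ k := by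
      push_cast
      ring
    rw [e2]
  rw [h4]
  ring

end Pool.Agent.E8helper40.FT
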